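import Pool.Agent.NPX.Stmts

/-!
# Squad NPX, row TRN: the transfinite construction (edit of TRA by helper13)
-/

set_option autoImplicit false

open Cardinal Set

namespace Pool.Agent.NPX.H17

open Pool.Agent.NPX

section
variable {K : Type} [CommGroup K]

/-- the cardinality of the closure. -/
theorem clo_card (Z : Set K) (hZ : #Z < 𝔠) : #(Subgroup.closure Z) < 𝔠 := by
  have hsub : ((Subgroup.closure Z : Subgroup K) : Set K)
      ⊆ Set.range (fun l : List (Z × Bool) =>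
        (l.map fun x => if x.2 then (x.1 : K) else (x.1 : K)⁻¹).prod) := by
    intro z hz
    refine Subgroup.closure_induction
      (p := fun z _ => z ∈ Set.range (fun l : List (Z × Bool) =>
        (l.map fun x => if x.2 then (x.1 : K) else (x.1 : K)⁻¹).prod))
      ?_ ?_ ?_ ?_ hz
    · intro x hx
      exact ⟨[(⟨x, hx⟩, true)], by simp⟩
    · exact ⟨[], by simp⟩
    · rintro _ _ _ _ ⟨l1, rfl⟩ ⟨l2, rfl⟩
      exact ⟨l1 ++ l2, by simp⟩
    · rintro _ _ ⟨l, rfl⟩
      refine ⟨l.map fun x => (x.1, !x.2), ?_⟩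
      simp only [List.map_map]
      rw [List.prod_inv, List.map_map]
      congr 1
      apply List.map_congr_left
      rintro ⟨x, β⟩ _
      cases β <;> simp
  have h1 : #((Subgroup.closure Z : Subgroup K) : Set K) ≤ #(List (Z × Bool)) :=
    (Cardinal.mk_le_mk_of_subset hsub).trans Cardinal.mk_range_le
  have h2 : #(List (Z × Bool)) ≤ max ℵ₀ #(Z × Bool) := Cardinal.mk_list_le_max _
  have h3 : #(Z × Bool) < 𝔠 := by
    rw [Cardinal.mk_prod, Cardinal.lift_id, Cardinal.lift_id]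
    refine Cardinal.mul_lt_of_lt aleph0_le_continuum hZ ?_
    exact (Cardinal.mk_lt_aleph0).trans aleph0_lt_continuum
  exact (h1.trans h2).trans_lt (max_lt aleph0_lt_continuum h3)

/-- unions of few finite sets. -/
theorem few {A Ω : Type} (hA : #A < 𝔠) (S : A → Set Ω) (hS : ∀ a, (S a).Finite) :
    #(⋃ a, S a) < 𝔠 := by
  refine (Cardinal.mk_iUnion_le S).trans_lt ?_
  refine Cardinal.mul_lt_of_lt aleph0_le_continuum hA ?_
  refine lt_of_le_of_lt (ciSup_le' fun a => ?_) aleph0_lt_continuum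
  exact (hS a).lt_aleph0.le

/-- one step of the construction. -/
theorem step (G0 : Subgroup K) (b : Prop) (P : (ℕ → Bool) → K) (φ : K → K)
    (hP : ∀ t : ℤ, (∀ σ, (P σ) ^ t ∈ G0) ∨ ∀ y, {σ | (P σ) ^ t = y}.Finite)
    (hφ : b → ∀ (t : ℤ) y, {σ | φ (P σ) * ((P σ) ^ t)⁻¹ = y}.Finite)
    (Z Y : Set K) (hZ : #Z < 𝔠) (hY : #Y < 𝔠) :
    ∃ σ, (∀ t : ℤ, ¬ (∀ σ', (P σ') ^ t ∈ G0) → ∀ g ∈ Subgroup.closure Z, ∀ y ∈ Y,
        (P σ) ^ t * g ≠ y) ∧ (b → ∀ t : ℤ, φ (P σ) * ((P σ) ^ t)⁻¹ ∉ Subgroup.closure Z) := by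
  have hGc : #(Subgroup.closure Z) < 𝔠 := clo_card Z hZ
  by_contra hcon
  push Not at hcon
  let S1 : (ℤ × Subgroup.closure Z × Y) → Set (ℕ → Bool) := fun w =>
    {σ | ¬ (∀ σ', (P σ') ^ w.1 ∈ G0) ∧ (P σ) ^ w.1 * (w.2.1 : K) = w.2.2}
  let S2 : (ℤ × Subgroup.closure Z) → Set (ℕ → Bool) := fun w =>
    {σ | b ∧ φ (P σ) * ((P σ) ^ w.1)⁻¹ = w.2}
  have hS1 : ∀ w, (S1 w).Finite := by
    intro w
    by_cases h : ∀ σ', (P σ') ^ w.1 ∈ G0
    · have : S1 w = ∅ := by
        ext σ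
        simp only [S1, Set.mem_setOf_eq, Set.mem_empty_iff_false, iff_false]
        exact fun h2 => h2.1 h
      rw [this]; exact Set.finite_empty
    · refine ((hP w.1).resolve_left h ((w.2.2 : K) * (w.2.1 : K)⁻¹)).subset ?_
      rintro σ ⟨-, hσ⟩
      show (P σ) ^ w.1 = _
      rw [← hσ, mul_inv_cancel_right]
  have hS2 : ∀ w, (S2 w).Finite := by
    intro w
    by_cases h : b
    · refine (hφ h w.1 w.2).subset ?_
      rintro σ ⟨-, hσ⟩
      exact hσ
    · have : S2 w = ∅ := by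
        ext σ
        simp only [S2, Set.mem_setOf_eq, Set.mem_empty_iff_false, iff_false]
        exact fun h2 => h h2.1
      rw [this]; exact Set.finite_empty
  have hcov : (Set.univ : Set (ℕ → Bool)) ⊆ (⋃ w, S1 w) ∪ (⋃ w, S2 w) := by
    intro σ _
    by_cases ha : ∀ t : ℤ, ¬ (∀ σ', (P σ') ^ t ∈ G0) → ∀ g ∈ Subgroup.closure Z, ∀ y ∈ Y,
        (P σ) ^ t * g ≠ y
    · right
      obtain ⟨hb, t, ht⟩ := hcon σ (fun t ht => ha t (fun h => by
        obtain ⟨σ', hσ'⟩ := ht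
        exact hσ' (h σ')))
      exact Set.mem_iUnion.2 ⟨(t, ⟨_, ht⟩), hb, rfl⟩
    · left
      push Not at ha
      obtain ⟨t, ht, g, hg, y, hy, h⟩ := ha
      refine Set.mem_iUnion.2 ⟨(t, ⟨g, hg⟩, ⟨y, hy⟩), ?_, h⟩
      intro hcon2
      obtain ⟨σ', hσ'⟩ := ht
      exact hσ' (hcon2 σ')
  have hle := Cardinal.mk_le_mk_of_subset hcov
  rw [Cardinal.mk_univ] at hle
  have hc : #(ℕ → Bool) = 𝔠 := by simp
  rw [hc] at hle
  have hZ0 : #ℤ < 𝔠 := by rw [Cardinal.mk_int]; exact aleph0_lt_continuum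
  have hc1 : #(ℤ × Subgroup.closure Z × Y) < 𝔠 := by
    rw [Cardinal.mk_prod, Cardinal.lift_id, Cardinal.lift_id, Cardinal.mk_prod, Cardinal.lift_id,
      Cardinal.lift_id]
    exact Cardinal.mul_lt_of_lt aleph0_le_continuum hZ0
      (Cardinal.mul_lt_of_lt aleph0_le_continuum hGc hY)
  have hc2 : #(ℤ × Subgroup.closure Z) < 𝔠 := by
    rw [Cardinal.mk_prod, Cardinal.lift_id, Cardinal.lift_id]
    exact Cardinal.mul_lt_of_lt aleph0_le_continuum hZ0 hGc
  have hlt := Cardinal.add_lt_of_lt aleph0_le_continuum (few hc1 S1 hS1) (few hc2 S2 hS2)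
  exact absurd (hle.trans (Cardinal.mk_union_le _ _)) (not_le.2 hlt)

/-- closure of an insertion. -/
theorem closure_ins (Z : Set K) (a z : K) (hz : z ∈ Subgroup.closure (insert a Z)) :
    ∃ t : ℤ, z * (a ^ t)⁻¹ ∈ Subgroup.closure Z := by
  rw [Set.insert_eq, Subgroup.closure_union, Subgroup.mem_sup] at hz
  obtain ⟨y, hy, w, hw, rfl⟩ := hz
  rw [Subgroup.mem_closure_singleton] at hy
  obtain ⟨t, rfl⟩ := hy
  refine ⟨t, ?_⟩
  have h1 : a ^ t * w * (a ^ t)⁻¹ = w := by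
    rw [mul_comm (a ^ t) w, mul_inv_cancel_right]
  rw [h1]
  exact hw

end

section order

variable {K : Type} [CommGroup K] {J : Type} [LinearOrder J]

/-- finitely many generators suffice. -/
theorem closure_dir (B : Set K) (x : J → K) (S : Set J) (j : J) (hj : j ∈ S) (z : K)
    (hz : z ∈ Subgroup.closure (B ∪ x '' S)) :
    ∃ i ∈ S, j ≤ i ∧ z ∈ Subgroup.closure (B ∪ x '' Set.Iic i) := by
  have mono : ∀ i i' : J, i ≤ i' → Subgroup.closure (B ∪ x '' Set.Iic i) ≤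
      Subgroup.closure (B ∪ x '' Set.Iic i') := fun i i' h =>
    Subgroup.closure_mono (Set.union_subset_union_right _
      (Set.image_mono (Set.Iic_subset_Iic.2 h)))
  refine Subgroup.closure_induction
    (p := fun z _ => ∃ i ∈ S, j ≤ i ∧ z ∈ Subgroup.closure (B ∪ x '' Set.Iic i)) ?_ ?_ ?_ ?_ hz
  · rintro z (hz | ⟨l, hl, rfl⟩)
    · exact ⟨j, hj, le_rfl, Subgroup.subset_closure (Or.inl hz)⟩
    · have hm : max j l ∈ S := by
        rcases max_choice j l with h | h <;> rw [h]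
        · exact hj
        · exact hl
      exact ⟨max j l, hm, le_max_left _ _,
        Subgroup.subset_closure (Or.inr ⟨l, le_max_right _ _, rfl⟩)⟩
  · exact ⟨j, hj, le_rfl, Subgroup.one_mem _⟩
  · rintro u v _ _ ⟨i1, hi1, hj1, h1⟩ ⟨i2, hi2, hj2, h2⟩
    have hm : max i1 i2 ∈ S := by
      rcases max_choice i1 i2 with h | h <;> rw [h]
      · exact hi1
      · exact hi2
    exact ⟨max i1 i2, hm, hj1.trans (le_max_left _ _), Subgroup.mul_mem _
      (mono _ _ (le_max_left _ _) h1) (mono _ _ (le_max_right _ _) h2)⟩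
  · rintro u _ ⟨i, hi, hji, h⟩
    exact ⟨i, hi, hji, Subgroup.inv_mem _ h⟩

/-- the construction over a well-order with small initial segments. -/
theorem trn_order [WellFoundedLT J] (hJ : ∀ i : J, #(Set.Iio i) < 𝔠) (G0 : Subgroup K)
    (hG0 : (G0 : Set K).Countable) (b : J → Prop)
    (P : J → (ℕ → Bool) → K) (φ : J → K → K)
    (hP : ∀ i (t : ℤ), (∀ σ, (P i σ) ^ t ∈ G0) ∨ ∀ y, {σ | (P i σ) ^ t = y}.Finite)
    (hφ : ∀ i, b i → ∀ (t : ℤ) y, {σ | φ i (P i σ) * ((P i σ) ^ t)⁻¹ = y}.Finite) :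
    ∃ G : Subgroup K, G0 ≤ G ∧ ∀ i, ∃ σ, P i σ ∈ G ∧ (b i → φ i (P i σ) ∉ G) := by
  classical
  have hG0c : #(G0 : Set K) < 𝔠 :=
    (Cardinal.le_aleph0_iff_set_countable.2 hG0).trans_lt aleph0_lt_continuum
  -- the recursion
  have hex : ∃ s : J → (ℕ → Bool), ∀ i,
      (∀ t : ℤ, ¬ (∀ σ', (P i σ') ^ t ∈ G0) →
        ∀ g ∈ Subgroup.closure ((G0 : Set K) ∪ (fun j => P j (s j)) '' Set.Iio i),
        ∀ y ∈ (fun j => φ j (P j (s j))) '' Set.Iio i, (P i (s i)) ^ t * g ≠ y) ∧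
      (b i → ∀ t : ℤ, φ i (P i (s i)) * ((P i (s i)) ^ t)⁻¹ ∉
        Subgroup.closure ((G0 : Set K) ∪ (fun j => P j (s j)) '' Set.Iio i)) := by
    have hstep : ∀ (i : J) (prev : (j : J) → j < i → (ℕ → Bool)), ∃ σ : ℕ → Bool,
        (∀ t : ℤ, ¬ (∀ σ', (P i σ') ^ t ∈ G0) →
          ∀ g ∈ Subgroup.closure ((G0 : Set K) ∪
            Set.range (fun j : Set.Iio i => P j.1 (prev j.1 j.2))),
          ∀ y ∈ Set.range (fun j : Set.Iio i => φ j.1 (P j.1 (prev j.1 j.2))),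
            (P i σ) ^ t * g ≠ y) ∧
        (b i → ∀ t : ℤ, φ i (P i σ) * ((P i σ) ^ t)⁻¹ ∉ Subgroup.closure ((G0 : Set K) ∪
            Set.range (fun j : Set.Iio i => P j.1 (prev j.1 j.2)))) := by
      intro i prev
      refine step G0 (b i) (P i) (φ i) (hP i) (hφ i) _ _ ?_ ?_
      · refine (Cardinal.mk_union_le _ _).trans_lt ?_
        exact Cardinal.add_lt_of_lt aleph0_le_continuum hG0c
          (Cardinal.mk_range_le.trans_lt (hJ i))
      · exact Cardinal.mk_range_le.trans_lt (hJ i)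
    choose F hF using hstep
    set s : J → (ℕ → Bool) := (wellFounded_lt (α := J)).fix F with hs
    have hfix : ∀ i, s i = F i (fun j _ => s j) := by
      intro i
      rw [hs]
      exact WellFounded.fix_eq _ F i
    refine ⟨s, ?_⟩
    intro i
    have h := hF i (fun j _ => s j)
    rw [← hfix i] at h
    have e1 : Set.range (fun j : Set.Iio i => P j.1 (s j.1)) = (fun j => P j (s j)) '' Set.Iio i := by
      rw [Set.image_eq_range]
    have e2 : Set.range (fun j : Set.Iio i => φ j.1 (P j.1 (s j.1)))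
        = (fun j => φ j (P j (s j))) '' Set.Iio i := by
      rw [Set.image_eq_range]
    rw [e1, e2] at h
    exact h
  obtain ⟨s, hs⟩ := hex
  set x : J → K := fun j => P j (s j) with hx
  -- the claim
  have hclaim : ∀ i j, j ≤ i → b j →
      φ j (x j) ∉ Subgroup.closure ((G0 : Set K) ∪ x '' Set.Iic i) := by
    intro i
    induction i using WellFoundedLT.induction with
    | ind i ih =>
      intro j hji hbj hmem
      have hI : (G0 : Set K) ∪ x '' Set.Iic i = insert (x i) ((G0 : Set K) ∪ x '' Set.Iio i) := by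
        rw [← Set.Iio_insert, Set.image_insert_eq, Set.union_insert]
      rw [hI] at hmem
      obtain ⟨ha, hb⟩ := hs i
      obtain ⟨t, ht⟩ := closure_ins _ _ _ hmem
      rcases hji.lt_or_eq with hlt | rfl
      · by_cases hall : ∀ σ', (P i σ') ^ t ∈ G0
        · have h1 : (x i) ^ t ∈ Subgroup.closure ((G0 : Set K) ∪ x '' Set.Iio i) :=
            Subgroup.subset_closure (Or.inl (hall (s i)))
          have h2 := Subgroup.mul_mem _ ht h1
          rw [inv_mul_cancel_right] at h2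
          obtain ⟨i', hi', hj', hz⟩ := closure_dir _ x (Set.Iio i) j hlt _ h2
          exact ih i' hi' j hj' hbj hz
        · refine ha t hall _ ht (φ j (x j)) ⟨j, hlt, rfl⟩ ?_
          rw [mul_comm (φ j (x j)), ← mul_assoc]
          show x i ^ t * (x i ^ t)⁻¹ * φ j (x j) = φ j (x j)
          rw [mul_inv_cancel, one_mul]
      · exact hb hbj t ht
  refine ⟨Subgroup.closure ((G0 : Set K) ∪ Set.range x), ?_, ?_⟩
  · intro g hg
    exact Subgroup.subset_closure (Or.inl hg)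
  · intro i
    refine ⟨s i, Subgroup.subset_closure (Or.inr ⟨i, rfl⟩), ?_⟩
    intro hbi hmem
    rw [← Set.image_univ] at hmem
    obtain ⟨i', -, hj', hz⟩ := closure_dir _ x Set.univ i (Set.mem_univ i) _ hmem
    exact hclaim i' i hj' hbi hz

end order

/-- **Row TRN**. -/
theorem trn : TrnStmt := by
  intro K _ I b P φ G0 hG0 hI hP hφ
  obtain ⟨e⟩ : Nonempty ((#I).ord.ToType ≃ I) := Cardinal.eq.1 (Cardinal.mk_ord_toType _)
  obtain ⟨G, hG, hG2⟩ := trn_order (J := (#I).ord.ToType)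
    (fun i => (Cardinal.mk_Iio_ord_toType i).trans_le hI) G0 hG0 (fun i => b (e i))
    (fun i => P (e i)) (fun i => φ (e i)) (fun i => hP (e i)) (fun i => hφ (e i))
  refine ⟨G, hG, ?_⟩
  intro i
  have h := hG2 (e.symm i)
  simpa using h

end Pool.Agent.NPX.H17
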